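import Pool.Agent.Q107.BK.Final

/-!
# Greedy and optimal bucket numbers

The gap `g-bucket(G) - bucket(G)` is not bounded by an absolute constant. Indeed there are graphs
with `bucket(G) ≤ 5` and arbitrarily large `g-bucket(G)`.
-/

namespace Pool.Agent.Results.MP_196ef9_co.UnboundedGap

open Finset

universe u

variable {V : Type u} [Fintype V] [DecidableEq V]

/-- A possible move of the Stepmother: nonnegative amounts with total `1`. -/
def IsPour (y : V → ℝ) : Prop := (∀ v, 0 ≤ y v) ∧ ∑ v, y v = 1

/-- `I` is an independent set of `G`. -/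
def Indep (G : SimpleGraph V) (I : Finset V) : Prop := ∀ u ∈ I, ∀ v ∈ I, ¬ G.Adj u v

/-- The contents after the buckets in `I` have been emptied. -/
def emptied (x : V → ℝ) (I : Finset V) : V → ℝ := fun v => if v ∈ I then 0 else x v

/-- The contents at the start of round `t` (for `t = 0, 1, 2, ...`) if the Stepmother adds `y s` and
Cinderella empties the buckets in `I s` in round `s`. -/
def content (y : ℕ → V → ℝ) (I : ℕ → Finset V) : ℕ → V → ℝ
  | 0 => fun _ => 0
  | t + 1 => emptied (content y I t + y t) (I t)

/-- Cinderella has a strategy `σ` (the move in round `t` is a function of the moves of the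
Stepmother in the rounds `0, ..., t`) such that the content of no bucket ever exceeds `b`. The
contents are largest just after the Stepmother's moves. -/
def CanWin (G : SimpleGraph V) (b : ℝ) : Prop :=
  ∃ σ : (t : ℕ) → (Fin (t + 1) → V → ℝ) → Finset V,
    (∀ t h, Indep G (σ t h)) ∧
    ∀ y : ℕ → V → ℝ, (∀ t, IsPour (y t)) →
      ∀ t v, content y (fun s => σ s (fun i => y i)) t v + y t v ≤ b

/-- `bucket'(G)`: the infimum of the capacities for which Cinderella wins. -/
noncomputable def bucket' (G : SimpleGraph V) : ℝ := sInf {b | 0 < b ∧ CanWin G b}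

/-- `bucket(G)` -/
noncomputable def bucket (G : SimpleGraph V) : ℝ := bucket' G - 1

/-- `I` is an independent set whose total content is maximal, for the contents `x`. -/
def IsGreedy (G : SimpleGraph V) (x : V → ℝ) (I : Finset V) : Prop :=
  Indep G I ∧ ∀ J : Finset V, Indep G J → ∑ v ∈ J, x v ≤ ∑ v ∈ I, x v

/-- Playing GREEDY no content ever exceeds `b`, for all moves of the Stepmother and all ways of
breaking ties. -/
def GreedyWins (G : SimpleGraph V) (b : ℝ) : Prop :=
  ∀ (y : ℕ → V → ℝ) (I : ℕ → Finset V), (∀ t, IsPour (y t)) →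
    (∀ t, IsGreedy G (content y I t + y t) (I t)) → ∀ t v, content y I t v + y t v ≤ b

/-- `g-bucket'(G)`: the infimum of the capacities for which GREEDY wins. -/
noncomputable def gbucket' (G : SimpleGraph V) : ℝ := sInf {b | 0 < b ∧ GreedyWins G b}

/-- `g-bucket(G)` -/
noncomputable def gbucket (G : SimpleGraph V) : ℝ := gbucket' G - 1

/-- (1) There is no absolute constant `C` with `g-bucket(G) - bucket(G) ≤ C` for every graph.
(2) There are graphs with `bucket(G) ≤ 5` and arbitrarily large `g-bucket(G)`. -/
theorem result :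
    (¬ ∃ C : ℝ, ∀ (V : Type) [Fintype V] [DecidableEq V] (G : SimpleGraph V),
      gbucket G - bucket G ≤ C) ∧
    (∀ C : ℝ, ∃ (V : Type) (_ : Fintype V) (_ : DecidableEq V) (G : SimpleGraph V),
      bucket G ≤ 5 ∧ C < gbucket G) := by
  have hcont : ∀ {V : Type} [Fintype V] [DecidableEq V] (y : ℕ → V → ℝ) (I : ℕ → Finset V) (t : ℕ),
      content y I t = Q107.BK.content y I t := by
    intro V _ _ y I t
    induction t with
    | zero => rfl
    | succ t ih =>
      show emptied (content y I t + y t) (I t) = Q107.BK.emptied (Q107.BK.content y I t + y t) (I t)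
      rw [ih]
      rfl
  have hb : ∀ {V : Type} [Fintype V] [DecidableEq V] (G : SimpleGraph V),
      bucket G = Q107.BK.bucket G := by
    intro V _ _ G
    unfold bucket bucket' CanWin
    simp only [hcont]
    rfl
  have hg : ∀ {V : Type} [Fintype V] [DecidableEq V] (G : SimpleGraph V),
      gbucket G = Q107.BK.gbucket G := by
    intro V _ _ G
    unfold gbucket gbucket' GreedyWins
    simp only [hcont]
    rfl
  have h2 : ∀ C : ℝ, ∃ (V : Type) (_ : Fintype V) (_ : DecidableEq V) (G : SimpleGraph V),
      bucket G ≤ 5 ∧ C < gbucket G := by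
    intro C
    obtain ⟨N, n, r, h5, hC⟩ := Q107.BK.gap C
    refine ⟨Q107.BK.VV N n, inferInstance, inferInstance, Q107.BK.GG N n r, ?_, ?_⟩
    · rw [hb]
      exact h5
    · rw [hg]
      exact hC
  refine ⟨?_, h2⟩
  rintro ⟨C, hC⟩
  obtain ⟨V, i1, i2, G, h5, hlt⟩ := h2 (C + 5)
  have := @hC V i1 i2 G
  linarith

end Pool.Agent.Results.MP_196ef9_co.UnboundedGap
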